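import Pool.Agent.NPC.Defs

set_option autoImplicit false

/-!
# `r`-independent sets in continuous graphs: definitions
-/

namespace Pool.Agent.H688R2.RInd

open Pool.Agent.NPC
open scoped ENNReal

/-- Finite graphs are given by adjacency lists: the vertices are `0, …, n - 1`, where `n` is the
length of `A`, and the entry number `u` of `A` is a list of neighbours of `u`. This is the graph
with adjacency lists `A`, extended by isolated numbers `≥ n` (which are not vertices). -/
def gr (A : List (List ℕ)) : SimpleGraph ℕ where
  Adj u v := u ≠ v ∧ u < A.length ∧ v < A.length ∧ (v ∈ A.getD u [] ∨ u ∈ A.getD v [])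
  symm := ⟨fun _ _ h => ⟨h.1.symm, h.2.2.1, h.2.1, h.2.2.2.symm⟩⟩
  loopless := ⟨fun _ h => h.1 rfl⟩

/-- (Names of) points of the continuous graph: `⟨u, v, x⟩` is the point on the edge `uv` at
distance `x` from `u` and `1 - x` from `v`; the vertex `u` is also named by `⟨u, u, 0⟩`. -/
structure Pt where
  /-- first end -/
  u : ℕ
  /-- second end -/
  v : ℕ
  /-- position -/
  x : ℝ

/-- `p` names a point of the continuous graph of `A`. -/
def IsPt (A : List (List ℕ)) (p : Pt) : Prop :=
  ((gr A).Adj p.u p.v ∧ 0 ≤ p.x ∧ p.x ≤ 1) ∨ (p.u = p.v ∧ p.u < A.length ∧ p.x = 0)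

/-- The length of a shortest route which runs a distance `s` to the vertex `a`, then through the
graph to the vertex `b`, then a distance `t`. -/
noncomputable def route (A : List (List ℕ)) (a : ℕ) (s : ℝ) (b : ℕ) (t : ℝ) : ℝ≥0∞ :=
  ENNReal.ofReal s + ((gr A).edist a b : ℝ≥0∞) + ENNReal.ofReal t

/-- The distance of two points inside an edge, if they lie on the same edge. -/
noncomputable def direct (p q : Pt) : ℝ≥0∞ :=
  if p.u = q.u ∧ p.v = q.v then ENNReal.ofReal |p.x - q.x|
  else if p.u = q.v ∧ p.v = q.u then ENNReal.ofReal |p.x - (1 - q.x)|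
  else ⊤

/-- The distance in the continuous graph: the length of a shortest path, which either stays inside
an edge or leaves `p` through one of the ends of its edge and reaches `q` through one of the ends
of its edge. It is `⊤` if there is no path. -/
noncomputable def cdist (A : List (List ℕ)) (p q : Pt) : ℝ≥0∞ :=
  min (direct p q)
    (min (min (route A p.u p.x q.u q.x) (route A p.u p.x q.v (1 - q.x)))
      (min (route A p.v (1 - p.x) q.u q.x) (route A p.v (1 - p.x) q.v (1 - q.x))))

/-- `I` lists points of the continuous graph with pairwise distances at least `2 * r`. -/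
def RIndep (A : List (List ℕ)) (r : ℝ) (I : List Pt) : Prop :=
  (∀ p ∈ I, IsPt A p) ∧ I.Pairwise (fun p q => ENNReal.ofReal (2 * r) ≤ cdist A p q)

/-- Output points: `(u, v, a, b)` is the point on the edge `uv` at the rational distance `a / b`
from `u`. -/
noncomputable def ofOut (o : ℕ × ℕ × ℕ × ℕ) : Pt := ⟨o.1, o.2.1, (o.2.2.1 : ℝ) / (o.2.2.2 : ℝ)⟩

/-- `O` is an `r`-independent set of size at least `c` times the size of any other one. -/
def Solves (A : List (List ℕ)) (r c : ℝ) (O : List (ℕ × ℕ × ℕ × ℕ)) : Prop :=
  (∀ o ∈ O, o.2.2.2 ≠ 0) ∧ RIndep A r (O.map ofOut) ∧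
    ∀ I : List Pt, RIndep A r I → c * (I.length : ℝ) ≤ O.length

/-- There is a polynomial-time algorithm which, on the graphs with property `P`, finds an
`r`-independent set of the continuous graph with performance guarantee `c`. -/
def RApprox (P : List (List ℕ) → Prop) (r c : ℝ) : Prop :=
  ∃ F : List Bool → List Bool, PolyTime F ∧
    ∀ A : List (List ℕ), P A → ∃ O, F (bits A) = bits O ∧ Solves A r c O

/-- No vertex is isolated. -/
def NoIsolated (A : List (List ℕ)) : Prop := ∀ u < A.length, ∃ v, (gr A).Adj u v

/-- `S` lists the vertices of an independent set, without repetition. -/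
def Indep (A : List (List ℕ)) (S : List ℕ) : Prop :=
  (∀ v ∈ S, v < A.length) ∧ S.Pairwise (fun u v => u ≠ v ∧ ¬ (gr A).Adj u v)

/-- There is a polynomial-time algorithm for Maximum Independent Set with performance guarantee
`c`. -/
def MISApprox (c : ℝ) : Prop :=
  ∃ F : List Bool → List Bool, PolyTime F ∧
    ∀ A : List (List ℕ), ∃ S, F (bits A) = bits S ∧ Indep A S ∧
      ∀ S' : List ℕ, Indep A S' → c * (S'.length : ℝ) ≤ S.length

end Pool.Agent.H688R2.RInd
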