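import Pool.Agent.H688R2.RInd.Red
import Pool.Agent.H569R2.Approx
import Pool.Agent.H671R2.PolyAuto

set_option autoImplicit false

/-!
# `r`-independent sets in continuous graphs: transfer of approximation algorithms
-/

namespace Pool.Agent.H688R2.RInd

open Pool.Agent.NPC
open scoped ENNReal

variable {α : Type} [TEnc α]

theorem p_adj {A : α → List (List ℕ)} {u v : α → ℕ} (hA : Poly A) (hu : Poly u) (hv : Poly v) :
    Poly (fun a => adj (A a) (u a) (v a)) := by
  unfold adj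
  refine Poly.and (Poly.and (Poly.not (Poly.decide_eq hu hv))
    (Poly.and (Poly.decide_lt hu (Poly.length hA)) (Poly.decide_lt hv (Poly.length hA)))) ?_
  exact Poly.or (Poly.decide_mem hv (Poly.getD hA hu (NPC.Poly.const [])))
    (Poly.decide_mem hu (Poly.getD hA hv (NPC.Poly.const [])))

theorem p_pos (h : ℕ) {i : α → ℕ} (hi : Poly i) : Poly (fun a => pos h (i a)) :=
  Poly.min hi (NPC.Poly.const h)

theorem p_tst (h C : ℕ) {A : α → List (List ℕ)} {u v : α → ℕ} (hA : Poly A) (hu : Poly u)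
    (hv : Poly v) : Poly (fun a => tst h C (A a) (u a) (v a)) := by
  have hC : Poly (fun _ : α => C) := NPC.Poly.const C
  have du := Poly.div hu hC
  have dv := Poly.div hv hC
  have mu := Poly.mod hu hC
  have mv := Poly.mod hv hC
  have pu := p_pos h mu
  have pv := p_pos h mv
  have h0 : Poly (fun _ : α => 0) := NPC.Poly.const 0
  unfold tst
  refine Poly.or (Poly.and (Poly.decide_eq du dv) (Poly.and (Poly.not (Poly.decide_eq mu mv))
    (Poly.and (Poly.decide_le pu pv.succ) (Poly.decide_le pv pu.succ)))) ?_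
  exact Poly.and (p_adj hA du dv) (Poly.and (Poly.decide_eq pu h0) (Poly.decide_eq pv h0))

theorem p_red (h C : ℕ) : Poly (fun A : List (List ℕ) => red h C A) := by
  have hN : UPoly (fun A : List (List ℕ) => A.length * C) :=
    UPoly.mul (UPoly.length Poly.id) (UPoly.const C)
  have hR := hN.range
  unfold red
  refine NPC.Poly.map (F := fun A a => (List.range (A.length * C)).filter (fun b => tst h C A a b))
    hR ?_
  have f1 : Poly (fun x : List (List ℕ) × ℕ => x.1) := Poly.fst Poly.id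
  refine Poly.filter (p := fun (x : List (List ℕ) × ℕ) b => tst h C x.1 x.2 b) (hR.comp f1) ?_
  exact p_tst h C (Poly.fst (Poly.fst Poly.id)) (Poly.snd (Poly.fst Poly.id)) (Poly.snd Poly.id)

/-- translate solutions back -/
def back (C : ℕ) (x : List (List ℕ) × List (ℕ × ℕ × ℕ × ℕ)) : List ℕ :=
  x.2.map (fun o => if 2 * o.2.2.1 ≤ o.2.2.2 then o.1 / C else o.2.1 / C)

theorem p_back (C : ℕ) : Poly (back C) := by
  unfold back
  refine NPC.Poly.map (F := fun _ (o : ℕ × ℕ × ℕ × ℕ) =>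
    if 2 * o.2.2.1 ≤ o.2.2.2 then o.1 / C else o.2.1 / C) (Poly.snd Poly.id) ?_
  have ho : Poly (fun x : (List (List ℕ) × List (ℕ × ℕ × ℕ × ℕ)) × (ℕ × ℕ × ℕ × ℕ) => x.2) :=
    Poly.snd Poly.id
  refine Poly.ite (p := fun x : (List (List ℕ) × List (ℕ × ℕ × ℕ × ℕ)) × (ℕ × ℕ × ℕ × ℕ) =>
    2 * x.2.2.2.1 ≤ x.2.2.2.2) (Poly.decide_le (Poly.mul (NPC.Poly.const 2)
      (Poly.fst (Poly.snd (Poly.snd ho)))) (Poly.snd (Poly.snd (Poly.snd ho)))) ?_ ?_
  · exact Poly.div (Poly.fst ho) (NPC.Poly.const C)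
  · exact Poly.div (Poly.fst (Poly.snd ho)) (NPC.Poly.const C)

theorem asg_ofOut (h t : ℕ) (o : ℕ × ℕ × ℕ × ℕ) (ho : o.2.2.2 ≠ 0) :
    asg h t (ofOut o) =
      if 2 * o.2.2.1 ≤ o.2.2.2 then o.1 / (h + t + 1) else o.2.1 / (h + t + 1) := by
  have h1 : (ofOut o).x ≤ 1 / 2 ↔ 2 * o.2.2.1 ≤ o.2.2.2 := by
    have h2 : (0 : ℝ) < (o.2.2.2 : ℝ) := by exact_mod_cast Nat.pos_of_ne_zero ho
    simp only [ofOut]
    rw [div_le_div_iff₀ h2 (by norm_num)]
    constructor
    · intro h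
      have : (((o.2.2.1 * 2 : ℕ)) : ℝ) ≤ ((1 * o.2.2.2 : ℕ) : ℝ) := by push_cast; linarith
      have := Nat.cast_le.1 this
      omega
    · intro h
      have : (((o.2.2.1 * 2 : ℕ)) : ℝ) ≤ ((1 * o.2.2.2 : ℕ) : ℝ) := by
        apply Nat.cast_le.2; omega
      push_cast at this
      linarith
  unfold asg
  by_cases h2 : 2 * o.2.2.1 ≤ o.2.2.2
  · rw [if_pos (h1.2 h2), if_pos h2]; rfl
  · rw [if_neg (fun h3 => h2 (h1.1 h3)), if_neg h2]; rfl

/-- An approximation algorithm for `r`-independent sets gives one for independent sets. -/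
theorem mis_of_r {r : ℝ} (hr : 1 < r) {c : ℝ} (H : RApprox NoIsolated r c) : MISApprox c := by
  obtain ⟨m, hm1, hm2, hm3⟩ : ∃ m : ℕ, 1 ≤ m ∧ (m : ℝ) + 1 < 2 * r ∧ 2 * r ≤ m + 2 := by
    have h1 : 2 < ⌈2 * r⌉₊ := Nat.lt_ceil.2 (by push_cast; linarith)
    refine ⟨⌈2 * r⌉₊ - 2, by omega, ?_, ?_⟩
    · have h2 := Nat.ceil_lt_add_one (show 0 ≤ 2 * r by linarith)
      have h3 : (((⌈2 * r⌉₊ - 2 : ℕ)) : ℝ) = (⌈2 * r⌉₊ : ℝ) - 2 := by
        rw [Nat.cast_sub (by omega)]; norm_num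
      rw [h3]; linarith
    · have h2 := Nat.le_ceil (2 * r)
      have h3 : (((⌈2 * r⌉₊ - 2 : ℕ)) : ℝ) = (⌈2 * r⌉₊ : ℝ) - 2 := by
        rw [Nat.cast_sub (by omega)]; norm_num
      rw [h3]; linarith
  set h := m / 2 with hh
  set t := m % 2 with htt
  have hmht : m = 2 * h + t := by omega
  have ht : t ≤ 1 := by omega
  have hht : 1 ≤ h + t := by omega
  have e : (m : ℝ) = 2 * (h : ℝ) + t := by rw [hmht]; push_cast; ring
  rw [e] at hm2 hm3
  obtain ⟨F, hF, hs⟩ := H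
  obtain ⟨G, hG, hGs⟩ := Pool.Agent.H569R2.transfer (p_red h (h + t + 1))
    (p_back (h + t + 1)) hF
  refine ⟨G, hG, fun A => ?_⟩
  obtain ⟨O, hO, h1, h2, h3⟩ := hs (red h (h + t + 1) A) (noIsolated_red h t ht hht A)
  have hback : back (h + t + 1) (A, O) = (O.map ofOut).map (asg h t) := by
    unfold back
    rw [List.map_map]
    apply List.map_congr_left
    intro o ho
    rw [Function.comp_apply, asg_ofOut h t o (h1 o ho)]
  refine ⟨back (h + t + 1) (A, O), hGs A O hO, ⟨?_, ?_⟩, ?_⟩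
  · rw [hback]
    intro v hv
    obtain ⟨p, hp, rfl⟩ := List.mem_map.1 hv
    obtain ⟨e, s, -, h5, h6, -⟩ := anchor h t ht hht A (h2.1 p hp)
    rw [← h6, Nat.div_lt_iff_lt_mul (by omega)]
    exact h5
  · rw [hback, List.pairwise_map]
    refine h2.2.imp_of_mem ?_
    intro p q hp hq hpq
    exact asg_indep h t ht hht hm2 A (h2.1 p hp) (h2.1 q hq) hpq
  · intro S' hS'
    have h4 := h3 _ (rindep_of_indep h t ht hm3 A hS')
    rw [List.length_map] at h4
    rw [hback, List.length_map, List.length_map]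
    exact h4

end Pool.Agent.H688R2.RInd
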