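import Pool.Agent.H688R2.RInd.Hard
import Pool.Agent.H628R2.Forb.PolyF

set_option autoImplicit false

/-!
# `r`-independent sets in continuous graphs: the greedy algorithm for `1/2 < r ≤ 1`
-/

namespace Pool.Agent.H688R2.RInd

open Pool.Agent.NPC
open scoped ENNReal

/-- is `w` covered by `M`? -/
def cov (M : List (ℕ × ℕ)) (w : ℕ) : Bool := M.any (fun e => decide (e.1 = w) || decide (e.2 = w))

/-- all pairs of adjacent vertices -/
def prs (A : List (List ℕ)) : List (ℕ × ℕ) :=
  (List.range A.length).flatMap (fun u => ((List.range A.length).filter (fun v =>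
    adj A u v)).map (fun v => (u, v)))

/-- a step of the greedy algorithm -/
def gstep (M : List (ℕ × ℕ)) (e : ℕ × ℕ) : List (ℕ × ℕ) :=
  if cov M e.1 || cov M e.2 then M else e :: M

/-- a maximal matching -/
def mtch (A : List (List ℕ)) : List (ℕ × ℕ) := (prs A).foldl gstep []

/-- the uncovered vertices -/
def unc (A : List (List ℕ)) : List ℕ :=
  (List.range A.length).filter (fun w => !cov (mtch A) w)

/-- the algorithm -/
def alg (A : List (List ℕ)) : List (ℕ × ℕ × ℕ × ℕ) :=
  if (unc A).length ≤ (mtch A).length then (mtch A).map (fun e => (e.1, e.2, 1, 2))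
  else (unc A).map (fun u => (u, u, 0, 1))

lemma mem_prs (A : List (List ℕ)) (u v : ℕ) : (u, v) ∈ prs A ↔ (gr A).Adj u v := by
  simp only [prs, List.mem_flatMap, List.mem_range, List.mem_map, List.mem_filter, adj_iff,
    Prod.mk.injEq]
  constructor
  · rintro ⟨a, -, b, ⟨-, h⟩, rfl, rfl⟩
    exact h
  · intro h
    exact ⟨u, h.2.1, v, ⟨h.2.2.1, h⟩, rfl, rfl⟩

lemma cov_iff (M : List (ℕ × ℕ)) (w : ℕ) : cov M w = true ↔ ∃ e ∈ M, e.1 = w ∨ e.2 = w := by
  simp [cov]

/-- disjointness of pairs -/
def Disj (e f : ℕ × ℕ) : Prop := e.1 ≠ f.1 ∧ e.1 ≠ f.2 ∧ e.2 ≠ f.1 ∧ e.2 ≠ f.2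

lemma greedy (A : List (List ℕ)) (l M : List (ℕ × ℕ)) (hl : ∀ e ∈ l, (gr A).Adj e.1 e.2)
    (hM : ∀ e ∈ M, (gr A).Adj e.1 e.2) (hd : M.Pairwise Disj) :
    (∀ e ∈ l.foldl gstep M, (gr A).Adj e.1 e.2) ∧ (l.foldl gstep M).Pairwise Disj ∧
      (∀ w, cov M w = true → cov (l.foldl gstep M) w = true) ∧
      ∀ e ∈ l, cov (l.foldl gstep M) e.1 = true ∨ cov (l.foldl gstep M) e.2 = true := by
  induction l generalizing M with
  | nil => exact ⟨hM, hd, fun _ h => h, by simp⟩
  | cons e l ih =>
    have hl' : ∀ e ∈ l, (gr A).Adj e.1 e.2 := fun f hf => hl f (List.mem_cons_of_mem _ hf)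
    rw [List.foldl_cons]
    by_cases hc : (cov M e.1 || cov M e.2) = true
    · have hg : gstep M e = M := by rw [gstep, if_pos hc]
      rw [hg]
      obtain ⟨h1, h2, h3, h4⟩ := ih M hl' hM hd
      refine ⟨h1, h2, h3, ?_⟩
      intro f hf
      rcases List.mem_cons.1 hf with rfl | hf
      · rw [Bool.or_eq_true] at hc
        rcases hc with h | h
        · exact Or.inl (h3 _ h)
        · exact Or.inr (h3 _ h)
      · exact h4 f hf
    · have hg : gstep M e = e :: M := by rw [gstep, if_neg hc]
      rw [hg]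
      have hc1 : ¬ cov M e.1 = true := fun h => hc (by simp [h])
      have hc2 : ¬ cov M e.2 = true := fun h => hc (by simp [h])
      rw [cov_iff] at hc1 hc2
      obtain ⟨h1, h2, h3, h4⟩ := ih (e :: M) hl' (by
        intro f hf
        rcases List.mem_cons.1 hf with rfl | hf
        · exact hl f List.mem_cons_self
        · exact hM f hf) (by
        rw [List.pairwise_cons]
        refine ⟨fun f hf => ?_, hd⟩
        refine ⟨fun h => hc1 ⟨f, hf, Or.inl h.symm⟩, fun h => hc1 ⟨f, hf, Or.inr h.symm⟩,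
          fun h => hc2 ⟨f, hf, Or.inl h.symm⟩, fun h => hc2 ⟨f, hf, Or.inr h.symm⟩⟩)
      refine ⟨h1, h2, fun w hw => h3 w ?_, ?_⟩
      · rw [cov_iff] at hw ⊢
        obtain ⟨f, hf, hw⟩ := hw
        exact ⟨f, List.mem_cons_of_mem _ hf, hw⟩
      · intro f hf
        rcases List.mem_cons.1 hf with rfl | hf
        · exact Or.inl (h3 _ ((cov_iff _ _).2 ⟨f, List.mem_cons_self, Or.inl rfl⟩))
        · exact h4 f hf

lemma mtch_spec (A : List (List ℕ)) :
    (∀ e ∈ mtch A, (gr A).Adj e.1 e.2) ∧ (mtch A).Pairwise Disj ∧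
      ∀ u v, (gr A).Adj u v → cov (mtch A) u = true ∨ cov (mtch A) v = true := by
  obtain ⟨h1, h2, -, h4⟩ := greedy A (prs A) [] (fun e he => (mem_prs A e.1 e.2).1 he)
    (by simp) List.Pairwise.nil
  exact ⟨h1, h2, fun u v h => h4 (u, v) ((mem_prs A u v).2 h)⟩

lemma count_le (A : List (List ℕ)) : A.length ≤ 2 * (mtch A).length + (unc A).length := by
  have h1 : (List.range A.length).length =
      ((List.range A.length).filter (fun w => cov (mtch A) w)).length + (unc A).length := by
    unfold unc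
    rw [← List.countP_eq_length_filter, ← List.countP_eq_length_filter]
    exact (List.length_eq_countP_add_countP (fun w => cov (mtch A) w)).trans (by
      congr 2
      funext w
      cases cov (mtch A) w <;> rfl)
  have h2 : ((List.range A.length).filter (fun w => cov (mtch A) w)).length ≤
      2 * (mtch A).length := by
    have hs : ((List.range A.length).filter (fun w => cov (mtch A) w)) ⊆
        (mtch A).flatMap (fun e => [e.1, e.2]) := by
      intro w hw
      obtain ⟨e, he, hw⟩ := (cov_iff _ _).1 (List.mem_filter.1 hw).2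
      rw [List.mem_flatMap]
      refine ⟨e, he, ?_⟩
      rcases hw with rfl | rfl <;> simp
    have hn : ((List.range A.length).filter (fun w => cov (mtch A) w)).Nodup :=
      List.nodup_range.filter _
    have := (hn.subperm hs).length_le
    refine this.trans ?_
    simp [List.length_flatMap, mul_comm]
  rw [List.length_range] at h1
  omega

lemma nearest {A : List (List ℕ)} {p : Pt} (hp : IsPt A p) : ∃ (e : ℕ) (s : ℝ),
      ((e = p.u ∧ s = p.x) ∨ (e = p.v ∧ s = 1 - p.x)) ∧ e < A.length ∧
      e = (if p.x ≤ 1 / 2 then p.u else p.v) ∧ 0 ≤ s ∧ s ≤ 1 / 2 := by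
  rcases hp with ⟨h1, h2, h3⟩ | ⟨h1, h2, h3⟩
  · by_cases hx : p.x ≤ 1 / 2
    · exact ⟨p.u, p.x, Or.inl ⟨rfl, rfl⟩, h1.2.1, by rw [if_pos hx], h2, hx⟩
    · exact ⟨p.v, 1 - p.x, Or.inr ⟨rfl, rfl⟩, h1.2.2.1, by rw [if_neg hx], by linarith,
        by push Not at hx; linarith⟩
  · exact ⟨p.u, p.x, Or.inl ⟨rfl, rfl⟩, h2, by rw [if_pos (by rw [h3]; norm_num)], by rw [h3],
      by rw [h3]; norm_num⟩

lemma cdist_le_route {A : List (List ℕ)} {p q : Pt} {e e' : ℕ} {s s' : ℝ}
    (h1 : (e = p.u ∧ s = p.x) ∨ (e = p.v ∧ s = 1 - p.x))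
    (h1' : (e' = q.u ∧ s' = q.x) ∨ (e' = q.v ∧ s' = 1 - q.x)) :
    cdist A p q ≤ route A e s e' s' := by
  unfold cdist
  rcases h1 with ⟨rfl, rfl⟩ | ⟨rfl, rfl⟩ <;> rcases h1' with ⟨rfl, rfl⟩ | ⟨rfl, rfl⟩
  · exact (min_le_right _ _).trans ((min_le_left _ _).trans (min_le_left _ _))
  · exact (min_le_right _ _).trans ((min_le_left _ _).trans (min_le_right _ _))
  · exact (min_le_right _ _).trans ((min_le_right _ _).trans (min_le_left _ _))
  · exact (min_le_right _ _).trans ((min_le_right _ _).trans (min_le_right _ _))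

lemma rindep_length {A : List (List ℕ)} {r : ℝ} (hr : 1 / 2 < r) {I : List Pt}
    (hI : RIndep A r I) : I.length ≤ A.length := by
  have h1 : (I.map (fun p : Pt => if p.x ≤ 1 / 2 then p.u else p.v)).Nodup := by
    rw [List.Nodup, List.pairwise_map]
    refine hI.2.imp_of_mem ?_
    intro p q hp hq hpq heq
    obtain ⟨e, s, h1, -, h3, h4, h5⟩ := nearest (hI.1 p hp)
    obtain ⟨e', s', h1', -, h3', h4', h5'⟩ := nearest (hI.1 q hq)
    have h6 := hpq.trans (cdist_le_route (A := A) h1 h1')
    have h7 : e = e' := by rw [h3, h3']; exact heq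
    subst h7
    rw [route, SimpleGraph.edist_self, ENat.toENNReal_zero, add_zero,
      ← ENNReal.ofReal_add h4 h4', ENNReal.ofReal_le_ofReal_iff (by linarith)] at h6
    linarith
  have h2 : (I.map (fun p : Pt => if p.x ≤ 1 / 2 then p.u else p.v)) ⊆ List.range A.length := by
    intro w hw
    obtain ⟨p, hp, rfl⟩ := List.mem_map.1 hw
    obtain ⟨e, s, -, h2, h3, -⟩ := nearest (hI.1 p hp)
    rw [List.mem_range, ← h3]
    exact h2
  have h3 := (h1.subperm h2).length_le
  simpa using h3

lemma two_le_edist {G : SimpleGraph ℕ} {u v : ℕ} (huv : u ≠ v) (h : ¬ G.Adj u v) :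
    (2 : ℝ≥0∞) ≤ (G.edist u v : ℝ≥0∞) := by
  classical
  have := le_edist (G := G) (fun w => if w = u then 0 else if G.Adj u w then 1 else 2) (by
    intro x y hxy
    by_cases hx : x = u
    · subst hx
      simp [hxy, hxy.ne']
    · simp only [if_neg hx]
      split_ifs <;> omega) (a := u) (b := v) (by simp)
  simpa [huv.symm, h] using this

lemma one_le_edist {G : SimpleGraph ℕ} {u v : ℕ} (huv : u ≠ v) :
    (1 : ℝ≥0∞) ≤ (G.edist u v : ℝ≥0∞) := by
  classical
  have := le_edist (G := G) (fun w => if w = u then 0 else 1) (by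
    intro x y hxy
    split_ifs <;> omega) (a := u) (b := v) (by simp)
  simpa [huv.symm] using this

lemma alg_solves {r : ℝ} (hr : 1 / 2 < r) (hr1 : r ≤ 1) (A : List (List ℕ)) :
    Solves A r (1 / 3) (alg A) := by
  obtain ⟨m1, m2, m3⟩ := mtch_spec A
  have hcount := count_le A
  have hlen : A.length ≤ 3 * (alg A).length := by
    unfold alg
    split_ifs with h
    · rw [List.length_map]; omega
    · rw [List.length_map]; omega
  have h2r : ENNReal.ofReal (2 * r) ≤ 2 := by
    rw [show (2 : ℝ≥0∞) = ENNReal.ofReal 2 by simp]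
    exact ENNReal.ofReal_le_ofReal (by linarith)
  have half : (ENNReal.ofReal (1 / 2) + 1 + ENNReal.ofReal (1 / 2) : ℝ≥0∞) = 2 := by
    rw [show (1 : ℝ≥0∞) = ENNReal.ofReal 1 by simp, ← ENNReal.ofReal_add (by norm_num) (by norm_num),
      ← ENNReal.ofReal_add (by norm_num) (by norm_num)]
    norm_num
  refine ⟨?_, ⟨?_, ?_⟩, ?_⟩
  · intro o ho
    unfold alg at ho
    split_ifs at ho
    · obtain ⟨e, -, rfl⟩ := List.mem_map.1 ho
      simp
    · obtain ⟨e, -, rfl⟩ := List.mem_map.1 ho
      simp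
  · intro p hp
    obtain ⟨o, ho, rfl⟩ := List.mem_map.1 hp
    unfold alg at ho
    split_ifs at ho
    · obtain ⟨e, he, rfl⟩ := List.mem_map.1 ho
      left
      refine ⟨m1 e he, ?_, ?_⟩ <;> simp only [ofOut] <;> norm_num
    · obtain ⟨u, hu, rfl⟩ := List.mem_map.1 ho
      right
      refine ⟨rfl, ?_, by simp [ofOut]⟩
      exact List.mem_range.1 (List.mem_filter.1 hu).1
  · rw [List.pairwise_map]
    unfold alg
    split_ifs
    · rw [List.pairwise_map]
      refine m2.imp ?_
      rintro e f ⟨d1, d2, d3, d4⟩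
      refine h2r.trans ?_
      refine le_min ?_ (le_min (le_min ?_ ?_) (le_min ?_ ?_))
      · have : direct (ofOut (e.1, e.2, 1, 2)) (ofOut (f.1, f.2, 1, 2)) = ⊤ := by
          unfold direct
          rw [if_neg (fun h => d1 h.1), if_neg (fun h => d2 h.1)]
        rw [this]; exact le_top
      all_goals
        rw [← half, route]
        simp only [ofOut]
        refine add_le_add (add_le_add (ENNReal.ofReal_le_ofReal (by norm_num))
          (one_le_edist (by assumption))) (ENNReal.ofReal_le_ofReal (by norm_num))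
    · rw [List.pairwise_map]
      have hnd : (unc A).Nodup := List.nodup_range.filter _
      refine hnd.imp_of_mem ?_
      intro u v hu hv huv
      refine h2r.trans ?_
      have hn : ¬ (gr A).Adj u v := by
        intro hadj
        have c1 := (List.mem_filter.1 hu).2
        have c2 := (List.mem_filter.1 hv).2
        rcases m3 u v hadj with h | h
        · simp [h] at c1
        · simp [h] at c2
      have key : ∀ s s' : ℝ, (2 : ℝ≥0∞) ≤ route A u s v s' := by
        intro s s'
        rw [route]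
        exact (two_le_edist huv hn).trans (le_add_right (le_add_left le_rfl))
      refine le_min ?_ (le_min (le_min ?_ ?_) (le_min ?_ ?_))
      · have : direct (ofOut (u, u, 0, 1)) (ofOut (v, v, 0, 1)) = ⊤ := by
          unfold direct
          rw [if_neg (fun h => huv h.1), if_neg (fun h => huv h.1)]
        rw [this]; exact le_top
      all_goals exact key _ _
  · intro I hI
    have h1 := rindep_length hr hI
    have h2 : (I.length : ℝ) ≤ 3 * (alg A).length := by
      exact_mod_cast h1.trans hlen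
    linarith

/-! ### Polynomial time -/

variable {α : Type} [TEnc α]

theorem p_cov {M : α → List (ℕ × ℕ)} {w : α → ℕ} (hM : Poly M) (hw : Poly w) :
    Poly (fun a => cov (M a) (w a)) := by
  unfold cov
  refine Poly.any (p := fun a (e : ℕ × ℕ) => decide (e.1 = w a) || decide (e.2 = w a)) hM ?_
  have he : Poly (fun x : α × (ℕ × ℕ) => x.2) := Poly.snd Poly.id
  have hw' := hw.comp (Poly.fst (α := α × (ℕ × ℕ)) Poly.id)
  exact Poly.or (Poly.decide_eq (Poly.fst he) hw') (Poly.decide_eq (Poly.snd he) hw')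

theorem p_prs : Poly prs := by
  have hR : Poly (fun A : List (List ℕ) => List.range A.length) :=
    (UPoly.length Poly.id).range
  unfold prs
  refine Poly.flatMap (F := fun A u => ((List.range A.length).filter (fun v =>
    adj A u v)).map (fun v => (u, v))) hR ?_
  have f1 : Poly (fun x : List (List ℕ) × ℕ => x.1) := Poly.fst Poly.id
  refine NPC.Poly.map (F := fun (x : List (List ℕ) × ℕ) v => (x.2, v))
    (Poly.filter (p := fun (x : List (List ℕ) × ℕ) v => adj x.1 x.2 v) (hR.comp f1) ?_) ?_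
  · exact p_adj (Poly.fst (Poly.fst Poly.id)) (Poly.snd (Poly.fst Poly.id)) (Poly.snd Poly.id)
  · exact Poly.pair (Poly.snd (Poly.fst Poly.id)) (Poly.snd Poly.id)

lemma gfold_sublist (l : List (ℕ × ℕ)) (M : List (ℕ × ℕ)) :
    (l.foldl gstep M).Sublist (l.reverse ++ M) := by
  induction l generalizing M with
  | nil => simp
  | cons e l ih =>
    rw [List.foldl_cons, List.reverse_cons, List.append_assoc]
    refine (ih _).trans ?_
    apply List.Sublist.append_left
    unfold gstep
    split_ifs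
    · exact List.sublist_cons_self _ _
    · exact List.Sublist.refl _

theorem p_mtch : Poly mtch := by
  obtain ⟨r, hr⟩ := p_prs.sz_le
  unfold mtch
  refine Poly.foldl (l := prs) (s := fun _ => []) (F := fun _ M e => gstep M e) p_prs
    (NPC.Poly.const []) ?_ r ?_
  · unfold gstep
    have hM : Poly (fun x : List (List ℕ) × List (ℕ × ℕ) × (ℕ × ℕ) => x.2.1) :=
      Poly.fst (Poly.snd Poly.id)
    have he : Poly (fun x : List (List ℕ) × List (ℕ × ℕ) × (ℕ × ℕ) => x.2.2) :=
      Poly.snd (Poly.snd Poly.id)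
    have h1 := Poly.or (p_cov hM (Poly.fst he)) (p_cov hM (Poly.snd he))
    exact (Poly.cond h1 hM (Poly.cons he hM)).congr fun x => by
      cases (cov x.2.1 x.2.2.1 || cov x.2.1 x.2.2.2) <;> rfl
  · intro A k _
    have h1 := gfold_sublist ((prs A).take k) []
    rw [List.append_nil] at h1
    have h2 := H628F.sz_sublist h1
    rw [sz_reverse] at h2
    exact h2.trans ((NPC.Poly.sz_take_le _ _).trans (hr A))

theorem p_unc : Poly unc := by
  have hR : Poly (fun A : List (List ℕ) => List.range A.length) :=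
    (UPoly.length Poly.id).range
  unfold unc
  refine Poly.filter (p := fun A w => !cov (mtch A) w) hR ?_
  exact Poly.not (p_cov (p_mtch.comp (Poly.fst Poly.id)) (Poly.snd Poly.id))

theorem p_alg : Poly alg := by
  unfold alg
  refine Poly.ite (p := fun A => (unc A).length ≤ (mtch A).length)
    (Poly.decide_le (Poly.length p_unc) (Poly.length p_mtch)) ?_ ?_
  · refine NPC.Poly.map (F := fun _ (e : ℕ × ℕ) => (e.1, e.2, 1, 2)) p_mtch ?_
    have he : Poly (fun x : List (List ℕ) × (ℕ × ℕ) => x.2) := Poly.snd Poly.id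
    exact Poly.pair (Poly.fst he) (Poly.pair (Poly.snd he) (NPC.Poly.const (1, 2)))
  · refine NPC.Poly.map (F := fun _ (u : ℕ) => (u, u, 0, 1)) p_unc ?_
    have he : Poly (fun x : List (List ℕ) × ℕ => x.2) := Poly.snd Poly.id
    exact Poly.pair he (Poly.pair he (NPC.Poly.const (0, 1)))

theorem r_approx {r : ℝ} (hr : 1 / 2 < r) (hr1 : r ≤ 1) :
    RApprox (fun _ => True) r (1 / 3) := by
  have h : Poly (fun x : List Bool => (unbits (List (List ℕ)) x).map (fun A => alg A)) :=
    by
      refine Poly.optMap ?_ ?_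
      · exact poly_unbits
      · exact p_alg.comp (Poly.snd Poly.id)
  refine ⟨_, polyTime_opt h, fun A _ => ⟨alg A, ?_, alg_solves hr hr1 A⟩⟩
  simp only [unbits_bits, Option.map_some]

end Pool.Agent.H688R2.RInd
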