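import Pool.Agent.H688R2.RInd.Defs
import Mathlib

set_option autoImplicit false

/-!
# `r`-independent sets in continuous graphs: the reduction from independent set
-/

namespace Pool.Agent.H688R2.RInd

open Pool.Agent.NPC
open scoped ENNReal

/-- adjacency test -/
def adj (A : List (List ℕ)) (u v : ℕ) : Bool :=
  (!decide (u = v) && (decide (u < A.length) && decide (v < A.length))) &&
    (decide (v ∈ A.getD u []) || decide (u ∈ A.getD v []))

lemma adj_iff (A : List (List ℕ)) (u v : ℕ) : adj A u v = true ↔ (gr A).Adj u v := by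
  simp [adj, gr, and_assoc]

/-- position on the pendant path -/
def pos (h i : ℕ) : ℕ := min i h

/-- adjacency in the constructed graph, `C` levels -/
def tst (h C : ℕ) (A : List (List ℕ)) (a b : ℕ) : Bool :=
  (decide (a / C = b / C) && (!decide (a % C = b % C) &&
    (decide (pos h (a % C) ≤ pos h (b % C) + 1) && decide (pos h (b % C) ≤ pos h (a % C) + 1)))) ||
  (adj A (a / C) (b / C) && (decide (pos h (a % C) = 0) && decide (pos h (b % C) = 0)))

/-- the constructed graph -/
def red (h C : ℕ) (A : List (List ℕ)) : List (List ℕ) :=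
  (List.range (A.length * C)).map (fun a => (List.range (A.length * C)).filter (fun b =>
    tst h C A a b))

lemma red_length (h C : ℕ) (A : List (List ℕ)) : (red h C A).length = A.length * C := by
  simp [red]

lemma tst_symm (h C : ℕ) (A : List (List ℕ)) (a b : ℕ) : tst h C A a b = tst h C A b a := by
  rw [Bool.eq_iff_iff]
  simp only [tst, Bool.or_eq_true, Bool.and_eq_true, decide_eq_true_eq, Bool.not_eq_true',
    decide_eq_false_iff_not, adj_iff]
  constructor
  · rintro (⟨h1, h2, h3, h4⟩ | ⟨h1, h2, h3⟩)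
    · exact Or.inl ⟨h1.symm, fun h => h2 h.symm, h4, h3⟩
    · exact Or.inr ⟨h1.symm, h3, h2⟩
  · rintro (⟨h1, h2, h3, h4⟩ | ⟨h1, h2, h3⟩)
    · exact Or.inl ⟨h1.symm, fun h => h2 h.symm, h4, h3⟩
    · exact Or.inr ⟨h1.symm, h3, h2⟩

lemma tst_iff (h C : ℕ) (A : List (List ℕ)) (a b : ℕ) : tst h C A a b = true ↔
    (a / C = b / C ∧ a % C ≠ b % C ∧ pos h (a % C) ≤ pos h (b % C) + 1 ∧
      pos h (b % C) ≤ pos h (a % C) + 1) ∨
    ((gr A).Adj (a / C) (b / C) ∧ pos h (a % C) = 0 ∧ pos h (b % C) = 0) := by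
  simp only [tst, Bool.or_eq_true, Bool.and_eq_true, decide_eq_true_eq, Bool.not_eq_true',
    decide_eq_false_iff_not, adj_iff, ne_eq]

lemma red_adj (h C : ℕ) (A : List (List ℕ)) (a b : ℕ) : (gr (red h C A)).Adj a b ↔
    a < A.length * C ∧ b < A.length * C ∧ tst h C A a b = true := by
  have key : ∀ a b : ℕ, a < A.length * C →
      (b ∈ (red h C A).getD a [] ↔ b < A.length * C ∧ tst h C A a b = true) := by
    intro a b ha
    rw [List.getD_eq_getElem?_getD, red, List.getElem?_map, List.getElem?_range ha]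
    simp
  simp only [gr, red_length]
  constructor
  · rintro ⟨-, h2, h3, h4⟩
    refine ⟨h2, h3, ?_⟩
    rcases h4 with h4 | h4
    · exact ((key a b h2).1 h4).2
    · rw [tst_symm]
      exact ((key b a h3).1 h4).2
  · rintro ⟨h1, h2, h3⟩
    refine ⟨?_, h1, h2, Or.inl ((key a b h1).2 ⟨h2, h3⟩)⟩
    rintro rfl
    rcases (tst_iff h C A a a).1 h3 with h4 | h4
    · exact h4.2.1 rfl
    · exact h4.1.ne rfl

/-- Lower bounds for distances by potentials. -/
lemma le_edist {G : SimpleGraph ℕ} (f : ℕ → ℕ) (hf : ∀ x y, G.Adj x y → f y ≤ f x + 1)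
    {a b : ℕ} (h0 : f a = 0) : ((f b : ℕ) : ℝ≥0∞) ≤ (G.edist a b : ℝ≥0∞) := by
  have hw : ∀ (x y : ℕ) (w : G.Walk x y), f y ≤ f x + w.length := by
    intro x y w
    induction w with
    | nil => simp
    | cons hxy w ih =>
      have := hf _ _ hxy
      simp only [SimpleGraph.Walk.length_cons]
      omega
  have h1 : ((f b : ℕ) : ℕ∞) ≤ G.edist a b := by
    rw [SimpleGraph.edist]
    refine le_iInf fun w => ?_
    have := hw a b w
    rw [h0, zero_add] at this
    exact_mod_cast this
  have h2 := ENat.toENNReal_le.2 h1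
  simpa using h2

section

variable (h t : ℕ)

lemma code_div {u i C : ℕ} (hi : i < C) : (u * C + i) / C = u := by
  rw [mul_comm, Nat.mul_add_div (by omega), Nat.div_eq_of_lt hi, add_zero]

lemma code_mod {u i C : ℕ} (hi : i < C) : (u * C + i) % C = i := by
  rw [mul_comm, Nat.mul_add_mod, Nat.mod_eq_of_lt hi]

lemma code_lt {u i n C : ℕ} (hu : u < n) (hi : i < C) : u * C + i < n * C := by
  calc u * C + i < u * C + C := by omega
    _ = (u + 1) * C := by ring
    _ ≤ n * C := Nat.mul_le_mul_right _ hu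

/-- the point for a vertex of the independent set -/
noncomputable def ptOf (u : ℕ) : Pt :=
  ⟨u * (h + t + 1) + h, u * (h + t + 1) + (h + t), (t : ℝ) / 2⟩

/-- the potential -/
noncomputable def potl (A : List (List ℕ)) (u b : ℕ) : ℕ :=
  if b / (h + t + 1) = u then h - pos h (b % (h + t + 1))
  else if adj A u (b / (h + t + 1)) then h + 1 + pos h (b % (h + t + 1))
  else h + 2 + pos h (b % (h + t + 1))

lemma potl_lip (A : List (List ℕ)) (u x y : ℕ) (hxy : (gr (red h (h + t + 1) A)).Adj x y) :
    potl h t A u y ≤ potl h t A u x + 1 := by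
  rw [red_adj, tst_iff] at hxy
  obtain ⟨-, -, hxy⟩ := hxy
  have p1 : pos h (x % (h + t + 1)) ≤ h := min_le_right _ _
  have p2 : pos h (y % (h + t + 1)) ≤ h := min_le_right _ _
  unfold potl
  generalize pos h (x % (h + t + 1)) = px at *
  generalize pos h (y % (h + t + 1)) = py at *
  rcases hxy with ⟨h1, -, h2, h3⟩ | ⟨h1, h2, h3⟩
  · rw [h1]
    split_ifs <;> omega
  · subst h2; subst h3
    generalize x / (h + t + 1) = vx at *
    generalize y / (h + t + 1) = vy at *
    by_cases e1 : vx = u
    · subst e1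
      have e2 : ¬ vy = vx := fun h => h1.ne h.symm
      have e3 : adj A vx vy = true := (adj_iff A vx vy).2 h1
      simp [e2, e3]
    · rw [if_neg e1]
      by_cases e2 : vy = u
      · simp only [e2, if_true]
        split_ifs <;> omega
      · rw [if_neg e2]
        split_ifs <;> omega

lemma route_ge (A : List (List ℕ)) {u v : ℕ} (huv : u ≠ v) (hn : ¬ (gr A).Adj u v)
    {i j : ℕ} (hi : i = h ∨ i = h + t) (hj : j = h ∨ j = h + t) {s s' : ℝ}
    (hs : (t : ℝ) / 2 ≤ s) (hs' : (t : ℝ) / 2 ≤ s') :
    ENNReal.ofReal (2 * h + t + 2) ≤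
      route (red h (h + t + 1) A) (u * (h + t + 1) + i) s (v * (h + t + 1) + j) s' := by
  have hi' : i < h + t + 1 := by omega
  have hj' : j < h + t + 1 := by omega
  have pi : pos h i = h := by rcases hi with rfl | rfl <;> simp [pos]
  have pj : pos h j = h := by rcases hj with rfl | rfl <;> simp [pos]
  have h0 : potl h t A u (u * (h + t + 1) + i) = 0 := by
    simp [potl, code_div hi', code_mod hi', pi]
  have h1 : potl h t A u (v * (h + t + 1) + j) = h + 2 + h := by
    have hadj : ¬ adj A u v = true := fun h => hn ((adj_iff A u v).1 h)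
    simp [potl, code_div hj', code_mod hj', pj, huv.symm, hadj]
  have h2 := le_edist (potl h t A u) (potl_lip h t A u)
    (a := u * (h + t + 1) + i) (b := v * (h + t + 1) + j) h0
  rw [h1] at h2
  have e : ENNReal.ofReal (2 * h + t + 2) =
      ENNReal.ofReal ((t : ℝ) / 2) + ((h + 2 + h : ℕ) : ℝ≥0∞) + ENNReal.ofReal ((t : ℝ) / 2) := by
    rw [← ENNReal.ofReal_natCast, ← ENNReal.ofReal_add (by positivity) (by positivity),
      ← ENNReal.ofReal_add (by positivity) (by positivity)]
    congr 1
    push_cast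
    ring
  rw [e, route]
  exact add_le_add (add_le_add (ENNReal.ofReal_le_ofReal hs) h2) (ENNReal.ofReal_le_ofReal hs')

lemma ptOf_isPt (ht : t ≤ 1) (A : List (List ℕ)) {u : ℕ} (hu : u < A.length) :
    IsPt (red h (h + t + 1) A) (ptOf h t u) := by
  obtain rfl | rfl : t = 0 ∨ t = 1 := by omega
  · right
    refine ⟨by simp [ptOf], ?_, by simp [ptOf]⟩
    rw [red_length]
    exact code_lt hu (by omega)
  · left
    refine ⟨?_, by simp [ptOf], by simp only [ptOf]; norm_num⟩
    rw [red_adj]
    refine ⟨code_lt hu (by omega), code_lt hu (by omega), ?_⟩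
    rw [tst_iff]
    left
    simp only [ptOf]
    rw [code_div (by omega), code_div (by omega), code_mod (by omega), code_mod (by omega)]
    simp [pos]

lemma rindep_of_indep (ht : t ≤ 1) {r : ℝ} (hr : 2 * r ≤ 2 * h + t + 2) (A : List (List ℕ))
    {S : List ℕ} (hS : Indep A S) : RIndep (red h (h + t + 1) A) r (S.map (ptOf h t)) := by
  refine ⟨?_, ?_⟩
  · intro p hp
    obtain ⟨u, hu, rfl⟩ := List.mem_map.1 hp
    exact ptOf_isPt h t ht A (hS.1 u hu)
  · rw [List.pairwise_map]
    refine hS.2.imp ?_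
    rintro u v ⟨huv, hn⟩
    refine (ENNReal.ofReal_le_ofReal hr).trans ?_
    have hx : (t : ℝ) / 2 ≤ 1 - (t : ℝ) / 2 := by
      have : (t : ℝ) ≤ 1 := by exact_mod_cast ht
      linarith
    have hne : ∀ i j : ℕ, i < h + t + 1 → j < h + t + 1 →
        u * (h + t + 1) + i ≠ v * (h + t + 1) + j := by
      intro i j hi hj he
      have := congrArg (fun x => x / (h + t + 1)) he
      simp only [code_div hi, code_div hj] at this
      exact huv this
    refine le_min ?_ (le_min (le_min ?_ ?_) (le_min ?_ ?_))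
    · have : direct (ptOf h t u) (ptOf h t v) = ⊤ := by
        unfold direct
        rw [if_neg, if_neg]
        · rintro ⟨h1, -⟩
          exact hne _ _ (by omega) (by omega) h1
        · rintro ⟨h1, -⟩
          exact hne _ _ (by omega) (by omega) h1
      rw [this]
      exact le_top
    · exact route_ge h t A huv hn (Or.inl rfl) (Or.inl rfl) le_rfl le_rfl
    · exact route_ge h t A huv hn (Or.inl rfl) (Or.inr rfl) le_rfl hx
    · exact route_ge h t A huv hn (Or.inr rfl) (Or.inl rfl) hx le_rfl
    · exact route_ge h t A huv hn (Or.inr rfl) (Or.inr rfl) hx hx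

/-- Upper bound for distances in the constructed graph. -/
lemma edist_le (A : List (List ℕ)) : ∀ (N a b : ℕ), a < A.length * (h + t + 1) →
    b < A.length * (h + t + 1) →
    (a / (h + t + 1) = b / (h + t + 1) ∨ (gr A).Adj (a / (h + t + 1)) (b / (h + t + 1))) →
    pos h (a % (h + t + 1)) + pos h (b % (h + t + 1)) ≤ N →
    (gr (red h (h + t + 1) A)).edist a b ≤ (N + 1 : ℕ) := by
  have step : ∀ a : ℕ, a < A.length * (h + t + 1) → pos h (a % (h + t + 1)) ≠ 0 →
      ∃ a', a' < A.length * (h + t + 1) ∧ a' / (h + t + 1) = a / (h + t + 1) ∧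
        pos h (a' % (h + t + 1)) + 1 = pos h (a % (h + t + 1)) ∧
        (gr (red h (h + t + 1) A)).Adj a a' := by
    intro a ha hp
    set C := h + t + 1 with hC
    have hk : pos h (a % C) ≤ h := min_le_right _ _
    have hk' : pos h (a % C) ≤ a % C := min_le_left _ _
    have hu : a / C < A.length := by
      rw [Nat.div_lt_iff_lt_mul (by omega)]; exact ha
    refine ⟨(a / C) * C + (pos h (a % C) - 1), code_lt hu (by omega), code_div (by omega), ?_, ?_⟩
    · rw [code_mod (by omega)]
      unfold pos at *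
      omega
    · rw [red_adj, tst_iff, code_div (by omega), code_mod (by omega)]
      refine ⟨ha, code_lt hu (by omega), Or.inl ⟨rfl, by omega, ?_, ?_⟩⟩ <;>
      · unfold pos at *
        omega
  intro N
  induction N with
  | zero =>
    intro a b ha hb hab hp
    by_cases e : a = b
    · subst e; simp
    · have : (gr (red h (h + t + 1) A)).Adj a b := by
        rw [red_adj, tst_iff]
        refine ⟨ha, hb, ?_⟩
        rcases hab with h1 | h1
        · left
          refine ⟨h1, ?_, by omega, by omega⟩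
          intro h2
          apply e
          rw [← Nat.div_add_mod a (h + t + 1), ← Nat.div_add_mod b (h + t + 1), h1, h2]
        · right
          exact ⟨h1, by omega, by omega⟩
      have h1 := SimpleGraph.edist_le (SimpleGraph.Walk.cons this SimpleGraph.Walk.nil)
      simpa using h1
  | succ N ih =>
    intro a b ha hb hab hp
    by_cases h1 : pos h (a % (h + t + 1)) = 0
    · by_cases h2 : pos h (b % (h + t + 1)) = 0
      · refine (ih a b ha hb hab (by omega)).trans ?_
        exact_mod_cast Nat.le_succ _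
      · obtain ⟨b', h3, h4, h5, h6⟩ := step b hb h2
        have h7 := ih a b' ha h3 (by rw [h4]; exact hab) (by omega)
        have h8 := SimpleGraph.edist_le (SimpleGraph.Walk.cons h6.symm SimpleGraph.Walk.nil)
        refine (SimpleGraph.edist_triangle (v := b')).trans ?_
        refine (add_le_add h7 h8).trans ?_
        simp only [SimpleGraph.Walk.length_cons, SimpleGraph.Walk.length_nil]
        norm_cast
    · obtain ⟨a', h3, h4, h5, h6⟩ := step a ha h1
      have h7 := ih a' b h3 hb (by rw [h4]; exact hab) (by omega)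
      have h8 := SimpleGraph.edist_le (SimpleGraph.Walk.cons h6 SimpleGraph.Walk.nil)
      refine (SimpleGraph.edist_triangle (v := a')).trans ?_
      refine (add_le_add h8 h7).trans ?_
      simp only [SimpleGraph.Walk.length_cons, SimpleGraph.Walk.length_nil]
      norm_cast
      omega

/-- the vertex of the original graph assigned to a point -/
noncomputable def asg (p : Pt) : ℕ := if p.x ≤ 1 / 2 then p.u / (h + t + 1) else p.v / (h + t + 1)

lemma anchor (ht : t ≤ 1) (hh : 1 ≤ h + t) (A : List (List ℕ)) {p : Pt}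
    (hp : IsPt (red h (h + t + 1) A) p) : ∃ (e : ℕ) (s : ℝ),
      ((e = p.u ∧ s = p.x) ∨ (e = p.v ∧ s = 1 - p.x)) ∧ e < A.length * (h + t + 1) ∧
      e / (h + t + 1) = asg h t p ∧ 0 ≤ s ∧ s + pos h (e % (h + t + 1)) ≤ h + (t : ℝ) / 2 := by
  have hpos : ∀ i, ((pos h i : ℕ) : ℝ) ≤ h := fun i => by exact_mod_cast min_le_right _ _
  have htt : (t : ℝ) = 0 ∨ (t : ℝ) = 1 := by
    obtain rfl | rfl : t = 0 ∨ t = 1 := by omega
    · left; simp
    · right; simp
  rcases hp with ⟨h1, h2, h3⟩ | ⟨h1, h2, h3⟩
  · rw [red_adj, tst_iff] at h1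
    obtain ⟨h4, h5, h6⟩ := h1
    rcases h6 with ⟨h6, h7, h8, h9⟩ | ⟨h6, h7, h8⟩
    · have hasg : asg h t p = p.u / (h + t + 1) := by
        unfold asg; split_ifs with hx
        · rfl
        · exact h6.symm
      rcases lt_trichotomy (pos h (p.u % (h + t + 1))) (pos h (p.v % (h + t + 1))) with h10 | h10 | h10
      · refine ⟨p.u, p.x, Or.inl ⟨rfl, rfl⟩, h4, hasg.symm, h2, ?_⟩
        have e1 : pos h (p.u % (h + t + 1)) + 1 ≤ h :=
          (Nat.succ_le_of_lt h10).trans (min_le_right _ _)
        have e2 : ((pos h (p.u % (h + t + 1)) : ℕ) : ℝ) + 1 ≤ h := by exact_mod_cast e1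
        rcases htt with e | e <;> rw [e] <;> linarith
      · have ht1 : t = 1 := by
          by_contra hne
          have ht0 : t = 0 := by omega
          subst ht0
          apply h7
          have e1 : p.u % (h + 0 + 1) < h + 0 + 1 := Nat.mod_lt _ (by omega)
          have e2 : p.v % (h + 0 + 1) < h + 0 + 1 := Nat.mod_lt _ (by omega)
          unfold pos at h10
          omega
        have e3 : (t : ℝ) = 1 := by rw [ht1]; simp
        by_cases hx : p.x ≤ 1 / 2
        · refine ⟨p.u, p.x, Or.inl ⟨rfl, rfl⟩, h4, hasg.symm, h2, ?_⟩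
          have := hpos (p.u % (h + t + 1))
          rw [e3]; linarith
        · refine ⟨p.v, 1 - p.x, Or.inr ⟨rfl, rfl⟩, h5, h6.symm.trans hasg.symm, by linarith, ?_⟩
          have := hpos (p.v % (h + t + 1))
          push Not at hx
          rw [e3]; linarith
      · refine ⟨p.v, 1 - p.x, Or.inr ⟨rfl, rfl⟩, h5, h6.symm.trans hasg.symm, by linarith, ?_⟩
        have e1 : pos h (p.v % (h + t + 1)) + 1 ≤ h :=
          (Nat.succ_le_of_lt h10).trans (min_le_right _ _)
        have e2 : ((pos h (p.v % (h + t + 1)) : ℕ) : ℝ) + 1 ≤ h := by exact_mod_cast e1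
        rcases htt with e | e <;> rw [e] <;> linarith
    · have hht : (1 : ℝ) / 2 ≤ h + (t : ℝ) / 2 := by
        rcases Nat.eq_zero_or_pos h with h0 | h0
        · have : t = 1 := by omega
          subst this; subst h0; norm_num
        · have e1 : (1 : ℝ) ≤ h := by exact_mod_cast h0
          rcases htt with e | e <;> rw [e] <;> linarith
      by_cases hx : p.x ≤ 1 / 2
      · refine ⟨p.u, p.x, Or.inl ⟨rfl, rfl⟩, h4, ?_, h2, ?_⟩
        · unfold asg; rw [if_pos hx]
        · rw [h7]; push_cast; linarith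
      · refine ⟨p.v, 1 - p.x, Or.inr ⟨rfl, rfl⟩, h5, ?_, by linarith, ?_⟩
        · unfold asg; rw [if_neg hx]
        · push Not at hx
          rw [h8]; push_cast; linarith
  · refine ⟨p.u, p.x, Or.inl ⟨rfl, rfl⟩, ?_, ?_, by rw [h3], ?_⟩
    · rw [red_length] at h2; exact h2
    · unfold asg
      rw [if_pos (by rw [h3]; norm_num)]
    · have := hpos (p.u % (h + t + 1))
      rw [h3]
      rcases htt with e | e <;> rw [e] <;> linarith

lemma asg_indep (ht : t ≤ 1) (hh : 1 ≤ h + t) {r : ℝ} (hr : 2 * (h : ℝ) + t + 1 < 2 * r)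
    (A : List (List ℕ)) {p q : Pt} (hp : IsPt (red h (h + t + 1) A) p)
    (hq : IsPt (red h (h + t + 1) A) q)
    (hpq : ENNReal.ofReal (2 * r) ≤ cdist (red h (h + t + 1) A) p q) :
    asg h t p ≠ asg h t q ∧ ¬ (gr A).Adj (asg h t p) (asg h t q) := by
  by_contra hcon
  have hor : asg h t p = asg h t q ∨ (gr A).Adj (asg h t p) (asg h t q) := by tauto
  obtain ⟨e, s, h1, h2, h3, h4, h5⟩ := anchor h t ht hh A hp
  obtain ⟨e', s', h1', h2', h3', h4', h5'⟩ := anchor h t ht hh A hq
  rw [← h3, ← h3'] at hor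
  have hd := edist_le h t A _ e e' h2 h2' hor le_rfl
  have hroute : cdist (red h (h + t + 1) A) p q ≤ route (red h (h + t + 1) A) e s e' s' := by
    unfold cdist
    rcases h1 with ⟨rfl, rfl⟩ | ⟨rfl, rfl⟩ <;> rcases h1' with ⟨rfl, rfl⟩ | ⟨rfl, rfl⟩
    · exact (min_le_right _ _).trans ((min_le_left _ _).trans (min_le_left _ _))
    · exact (min_le_right _ _).trans ((min_le_left _ _).trans (min_le_right _ _))
    · exact (min_le_right _ _).trans ((min_le_right _ _).trans (min_le_left _ _))
    · exact (min_le_right _ _).trans ((min_le_right _ _).trans (min_le_right _ _))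
  have h6 := hpq.trans hroute
  have hd' := ENat.toENNReal_le.2 hd
  have h7 : route (red h (h + t + 1) A) e s e' s' ≤ ENNReal.ofReal (2 * h + t + 1) := by
    rw [route]
    refine (add_le_add (add_le_add le_rfl hd') le_rfl).trans ?_
    rw [ENat.toENNReal_coe, ← ENNReal.ofReal_natCast, ← ENNReal.ofReal_add h4 (by positivity),
      ← ENNReal.ofReal_add (by positivity) h4']
    apply ENNReal.ofReal_le_ofReal
    push_cast
    linarith
  have h8 := h6.trans h7
  rw [ENNReal.ofReal_le_ofReal_iff (by positivity)] at h8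
  linarith

lemma noIsolated_red (ht : t ≤ 1) (hh : 1 ≤ h + t) (A : List (List ℕ)) :
    NoIsolated (red h (h + t + 1) A) := by
  intro a ha
  rw [red_length] at ha
  set C := h + t + 1 with hC
  have hu : a / C < A.length := by
    rw [Nat.div_lt_iff_lt_mul (by omega)]; exact ha
  have hm : a % C < C := Nat.mod_lt _ (by omega)
  rcases Nat.eq_zero_or_pos (a % C) with h0 | h0
  · refine ⟨(a / C) * C + 1, ?_⟩
    rw [red_adj, tst_iff, code_div (by omega), code_mod (by omega)]
    refine ⟨ha, code_lt hu (by omega), Or.inl ⟨rfl, by omega, ?_, ?_⟩⟩ <;>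
    · unfold pos; omega
  · refine ⟨(a / C) * C + (a % C - 1), ?_⟩
    rw [red_adj, tst_iff, code_div (by omega), code_mod (by omega)]
    refine ⟨ha, code_lt hu (by omega), Or.inl ⟨rfl, by omega, ?_, ?_⟩⟩ <;>
    · unfold pos; omega

end

end Pool.Agent.H688R2.RInd
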